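import Pool.Agent.H45.EGD.S1

/-!
# EGD, row SCA: the ideal of the minors is an intersection of linear ideals
-/

set_option autoImplicit false

namespace Pool.EGD

open MvPolynomial Pool.EGH

namespace Sc8

variable {K : Type} [Field K] {N : ℕ} {S : Type} [AddCommGroup S] [Module K S]
  {L : Submodule K (PR K N)} {p q : S →ₗ[K] PR K N}

theorem hg_lin (M : Submodule K (PR K N)) (hM : M ≤ fm K N 1) :
    Hg (Ideal.span (M : Set (PR K N))) :=
  (h_hga K N).2.2.2 _ _ _ (h_lin K N M hM).1

theorem fi_range_le (h : Pc L p q) (c : K) : L ⊔ LinearMap.range (p + c • q) ≤ fm K N 1 := by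
  refine sup_le h.hL ?_
  rintro _ ⟨x, rfl⟩
  exact add_mem (h.hp x) (Submodule.smul_mem _ c (h.hq x))

theorem hg_fi (h : Pc L p q) (c : K) : Hg (fi L p q c) := hg_lin _ (fi_range_le h c)

theorem AA_sub {f g : PR K N} (hf : AA L p q f) (hg : AA L p q g) : AA L p q (f - g) := by
  classical
  obtain ⟨Z, hZ⟩ := hf
  obtain ⟨Z', hZ'⟩ := hg
  refine ⟨Z ∪ Z', fun c hc => ?_⟩
  rw [Finset.mem_union, not_or] at hc
  exact sub_mem (hZ c hc.1) (hZ' c hc.2)

theorem AA_mi (hmi : ∀ c, mi L p q ≤ fi L p q c) {f : PR K N} (hf : f ∈ mi L p q) :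
    AA L p q f := ⟨∅, fun c _ => hmi c hf⟩

theorem AA_comp (h : Pc L p q) {f : PR K N} (hf : AA L p q f) (d : ℕ) :
    AA L p q (homogeneousComponent d f) := by
  obtain ⟨Z, hZ⟩ := hf
  exact ⟨Z, fun c hc => hg_fi h c f (hZ c hc) d⟩

theorem pk_one (L : Submodule K (PR K N)) (p q : S →ₗ[K] PR K N) (y : ℕ → PR K N) :
    pk L p q y 1 = mi L p q ⊔ Ideal.span {y 0} := by
  unfold pk
  congr 2
  ext z
  constructor
  · rintro ⟨j, hj, rfl⟩
    have hj' : j < 1 := hj
    have : j = 0 := by omega
    subst this
    exact Set.mem_singleton _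
  · intro hz
    rw [Set.mem_singleton_iff] at hz
    exact ⟨0, Nat.zero_lt_one, hz.symm⟩

theorem comp_mul_fm (l : PR K N) (hl : l ∈ fm K N 1) (h : PR K N) (d : ℕ) :
    homogeneousComponent (d + 1) (l * h) = l * homogeneousComponent d h := by
  classical
  have hlh : l.IsHomogeneous 1 := (mem_homogeneousSubmodule 1 l).1 hl
  conv_lhs => rw [← sum_homogeneousComponent h, Finset.mul_sum, map_sum]
  have h1 : ∀ i ∈ Finset.range (h.totalDegree + 1),
      homogeneousComponent (d + 1) (l * homogeneousComponent i h) =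
        if i = d then l * homogeneousComponent d h else 0 := by
    intro i _
    have h2 : (l * homogeneousComponent i h).IsHomogeneous (1 + i) :=
      hlh.mul (homogeneousComponent_isHomogeneous i h)
    rw [homogeneousComponent_of_mem ((mem_homogeneousSubmodule _ _).2 h2)]
    by_cases hi : i = d
    · subst hi
      rw [if_pos (by omega), if_pos rfl]
    · rw [if_neg (by omega), if_neg hi]
  rw [Finset.sum_congr rfl h1, Finset.sum_ite_eq']
  split_ifs with h3
  · rfl
  · rw [Finset.mem_range, not_lt] at h3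
    rw [homogeneousComponent_eq_zero _ _ (by omega), mul_zero]

theorem comp_zero_mul_fm (l : PR K N) (hl : l ∈ fm K N 1) (h : PR K N) :
    homogeneousComponent 0 (l * h) = 0 := by
  classical
  have hlh : l.IsHomogeneous 1 := (mem_homogeneousSubmodule 1 l).1 hl
  conv_lhs => rw [← sum_homogeneousComponent h, Finset.mul_sum, map_sum]
  refine Finset.sum_eq_zero fun i _ => ?_
  have h2 : (l * homogeneousComponent i h).IsHomogeneous (1 + i) :=
    hlh.mul (homogeneousComponent_isHomogeneous i h)
  rw [homogeneousComponent_of_mem ((mem_homogeneousSubmodule _ _).2 h2), if_neg (by omega)]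

/-- The descent with `y 0`. -/
theorem descend (h : Pc L p q) (hmi : ∀ c, mi L p q ≤ fi L p q c) (hg : Hg (mi L p q))
    (y0 : PR K N) (hy0 : y0 ∈ fm K N 1) (hreg : ∀ f, AA L p q (y0 * f) → AA L p q f)
    (hone : ∀ f, AA L p q f → f ∈ mi L p q ⊔ Ideal.span {y0}) :
    ∀ f, AA L p q f → f ∈ mi L p q := by
  classical
  have key : ∀ d : ℕ, ∀ f ∈ fm K N d, AA L p q f → f ∈ mi L p q := by
    intro d
    induction d with
    | zero =>
      intro f hf hA
      obtain ⟨g, hg', w, hw, hgw⟩ := Submodule.mem_sup.1 (hone f hA)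
      obtain ⟨u, rfl⟩ := Ideal.mem_span_singleton'.1 hw
      have h1 : homogeneousComponent 0 f = f := by
        rw [homogeneousComponent_of_mem hf, if_pos rfl]
      rw [← h1, ← hgw, map_add, mul_comm u, comp_zero_mul_fm y0 hy0, add_zero]
      exact hg g hg' 0
    | succ d ih =>
      intro f hf hA
      obtain ⟨g, hg', w, hw, hgw⟩ := Submodule.mem_sup.1 (hone f hA)
      obtain ⟨u, rfl⟩ := Ideal.mem_span_singleton'.1 hw
      have h1 : homogeneousComponent (d + 1) f = f := by
        rw [homogeneousComponent_of_mem hf, if_pos rfl]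
      have h2 : f = homogeneousComponent (d + 1) g + y0 * homogeneousComponent d u := by
        rw [← h1, ← hgw, map_add, mul_comm u, comp_mul_fm y0 hy0]
      have h3 : homogeneousComponent (d + 1) g ∈ mi L p q := hg g hg' _
      have h4 : AA L p q (y0 * homogeneousComponent d u) := by
        have h5 := AA_sub hA (AA_mi hmi h3)
        have h6 : f - homogeneousComponent (d + 1) g = y0 * homogeneousComponent d u := by
          rw [h2]; ring
        rwa [h6] at h5
      have h7 := ih _ (homogeneousComponent_mem d u) (hreg _ h4)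
      rw [h2]
      exact add_mem h3 (Ideal.mul_mem_left _ _ h7)
  intro f hf
  rw [← sum_homogeneousComponent f]
  exact sum_mem fun d _ => key d _ (homogeneousComponent_mem d f) (AA_comp h hf d)

end Sc8

open Sc8 in
/-- SCA. -/
theorem t_sca (hFIP : FIPStmt) (hCHN : CHNStmt) (hCLQ : CLQStmt) (hPKT : PKTStmt) : SCAStmt := by
  intro K _ _ N
  have : Infinite K := IsAlgClosed.instInfinite
  have main : ∀ s : ℕ, ∀ (S : Type) [AddCommGroup S] [Module K S] [Module.Finite K S]
      (L : Submodule K (PR K N)) (p q : S →ₗ[K] PR K N), Pc L p q →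
      Module.finrank K S = s → 1 ≤ s → ∀ f, AA L p q f → f ∈ mi L p q := by
    intro s
    induction s using Nat.strong_induction_on with
    | _ s ih =>
      intro S _ _ _ L p q h hs hs1
      obtain ⟨a, x, y, hc⟩ := hCHN K N S L p q h (by omega)
      obtain ⟨-, hQ2, hQ3, hQ4⟩ := hCLQ K N S L p q a x y h hc
      obtain ⟨hT1, hT2⟩ := hPKT K N S L p q a x y h hc
      have hmi : ∀ c, mi L p q ≤ fi L p q c := fun c => (hFIP K N S L p q h c).2.2.2.1
      have hg : Hg (mi L p q) := (hFIP K N S L p q h 0).2.2.2.2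
      have has : a ≤ s := by
        have h1 := hc.li.fintype_card_le_finrank
        rw [Fintype.card_fin, hs] at h1
        exact h1
      have hdown : ∀ f, AA L p q f → ∀ i, i ≤ a → 1 ≤ i → f ∈ pk L p q y (i + 1) →
          f ∈ pk L p q y 1 := by
        intro f hf i
        induction i with
        | zero => intro _ h1 _; omega
        | succ i ihi =>
          intro h1 _ h3
          have h4 := hQ3 f hf (i + 1) (by omega) h1 h3
          rcases Nat.eq_zero_or_pos i with h5 | h5
          · subst h5; exact h4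
          · exact ihi (by omega) h5 h4
      refine descend h hmi hg (y 0) (hc.yf 0 (Nat.zero_le _)) hQ4 ?_
      intro f hf
      rw [← pk_one]
      rcases Nat.lt_or_ge a s with hlt | hge
      · obtain ⟨C, hC⟩ := Submodule.exists_isCompl (Submodule.span K (x '' Set.Iio a))
        obtain ⟨hP, hm, hAA, -, hfr⟩ := hT1 C hC
        have hm' := ih (s - a) (by have := hc.pos; omega) C
          (L ⊔ Submodule.span K (y '' Set.Iic a)) (p.comp C.subtype) (q.comp C.subtype) hP
          (by omega) (by omega) f (hAA f hf)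
        rw [hm] at hm'
        exact hdown f hf a le_rfl hc.pos hm'
      · have hae : a = s := by omega
        have h1 := hQ2 f hf
        rw [← hT2 (by omega)] at h1
        rcases Nat.lt_or_ge 1 a with h2 | h2
        · obtain ⟨b, rfl⟩ : ∃ b, a = b + 1 := ⟨a - 1, by omega⟩
          exact hdown f hf b (by omega) (by omega) h1
        · have h3 : a = 1 := by have := hc.pos; omega
          rwa [h3] at h1
  intro S _ _ _ L p q h hs f hf
  exact main _ S L p q h rfl hs f hf

end Pool.EGD
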