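import Pool.Agent.H8.EGD.SCA
import Pool.Agent.H85.EGC.TR1

/-!
# EGD, row SCB: the quotient by the ideal of the minors is Cohen-Macaulay
-/

set_option autoImplicit false

namespace Pool.EGD

open MvPolynomial Pool.EGH

namespace Sc8

variable {K : Type} [Field K] {N : ℕ} {S : Type} [AddCommGroup S] [Module K S]
  {L : Submodule K (PR K N)} {p q : S →ₗ[K] PR K N}

theorem pk_succ (L : Submodule K (PR K N)) (p q : S →ₗ[K] PR K N) (y : ℕ → PR K N) (i : ℕ) :
    pk L p q y (i + 1) = pk L p q y i ⊔ Ideal.span {y i} := by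
  unfold pk
  rw [sup_assoc, ← Ideal.span_union]
  congr 2
  ext z
  constructor
  · rintro ⟨j, hj, rfl⟩
    have hj' : j < i + 1 := hj
    rcases Nat.lt_or_ge j i with h1 | h1
    · exact Or.inl ⟨j, h1, rfl⟩
    · have : j = i := by omega
      rw [this]
      exact Or.inr (Set.mem_singleton _)
  · rintro (⟨j, hj, rfl⟩ | h1)
    · exact ⟨j, Nat.lt_succ_of_lt hj, rfl⟩
    · rw [Set.mem_singleton_iff] at h1
      exact ⟨i, Nat.lt_succ_self i, h1.symm⟩

theorem hg_pk (hg : Hg (mi L p q)) (y : ℕ → PR K N) (a : ℕ) (hy : ∀ i, i ≤ a → y i ∈ fm K N 1) :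
    ∀ i, i ≤ a + 1 → Hg (pk L p q y i) := by
  intro i
  induction i with
  | zero =>
    intro _
    have h1 : pk L p q y 0 = mi L p q := by
      unfold pk
      have h2 : (Set.Iio 0 : Set ℕ) = ∅ := by
        ext j
        simp
      rw [h2, Set.image_empty, Ideal.span_empty, sup_bot_eq]
    rw [h1]
    exact hg
  | succ i ih =>
    intro hi
    rw [pk_succ]
    exact ((h_hga K N).2.1 _ 1 (y i) (ih (by omega)) (hy i (by omega))).1

theorem CM.mono {r t t' : ℕ} {J : Ideal (PR K N)} (h : CM r t J) (ht : t ≤ t') : CM r t' J :=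
  ⟨h.hg, h.dp, fun j hj => h.tp j (by omega)⟩

theorem r_pos (h : Pc L p q) [Module.Finite K S] {y : PR K N} (hy : y ∈ fm K N 1)
    (hya : y ∉ L ⊔ LinearMap.range p) {r : ℕ}
    (hr : Module.finrank K L + Module.finrank K S + r = N) : 1 ≤ r := by
  have hfin : Module.Finite K ↥(fm K N 1) := h_fin K N 1
  have hle : L ⊔ LinearMap.range p ≤ fm K N 1 := by
    have := fi_range_le h 0
    rwa [zero_smul, add_zero] at this
  have hLf : Module.Finite K L := Submodule.finiteDimensional_of_le h.hL
  have hlt : L ⊔ LinearMap.range p < fm K N 1 := lt_of_le_of_ne hle (fun he => hya (he ▸ hy))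
  have h1 := Submodule.finrank_lt_finrank_of_lt hlt
  rw [Pool.EGC.TR1x.fr1] at h1
  have hpinj : Function.Injective p := by
    rw [← LinearMap.ker_eq_bot, LinearMap.ker_eq_bot']
    intro x hx
    rcases h.inj 1 0 x (by rw [hx]; simp) with h2 | h2
    · exact h2
    · exact absurd h2.1 one_ne_zero
  have h2 : Module.finrank K ↥(LinearMap.range p) = Module.finrank K S :=
    LinearMap.finrank_range_of_inj hpinj
  have h3 := Submodule.finrank_sup_add_finrank_inf_eq L (LinearMap.range p)
  have h4 : L ⊓ LinearMap.range p = ⊥ := by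
    rw [eq_bot_iff]
    rintro _ ⟨hz, ⟨x, rfl⟩⟩
    rcases h.inj 1 0 x (by simpa using hz) with h5 | h5
    · rw [h5, map_zero]; exact Submodule.zero_mem _
    · exact absurd h5.1 one_ne_zero
  rw [h4, finrank_bot] at h3
  omega

end Sc8

open Sc8 in
/-- SCB. -/
theorem t_scb (hFIP : FIPStmt) (hCHN : CHNStmt) (hCLQ : CLQStmt) (hPKT : PKTStmt)
    (hSCA : SCAStmt) (hCMA : CMAStmt) (hCMC : CMCStmt) : SCBStmt := by
  intro K _ _ N
  have : Infinite K := IsAlgClosed.instInfinite
  have main : ∀ s : ℕ, ∀ (S : Type) [AddCommGroup S] [Module K S] [Module.Finite K S]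
      (L : Submodule K (PR K N)) (p q : S →ₗ[K] PR K N), Pc L p q →
      Module.finrank K S = s → 1 ≤ s → ∀ r : ℕ, Module.finrank K L + Module.finrank K S + r = N →
      CM (r + 1) 1 (mi L p q) := by
    intro s
    induction s using Nat.strong_induction_on with
    | _ s ih =>
      intro S _ _ _ L p q h hs hs1 r hr
      obtain ⟨a, x, y, hc⟩ := hCHN K N S L p q h (by omega)
      obtain ⟨hQ1, hQ2, hQ3, hQ4⟩ := hCLQ K N S L p q a x y h hc
      obtain ⟨hT1, hT2⟩ := hPKT K N S L p q a x y h hc
      have hmi : ∀ c, mi L p q ≤ fi L p q c := fun c => (hFIP K N S L p q h c).2.2.2.1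
      have hg : Hg (mi L p q) := (hFIP K N S L p q h 0).2.2.2.2
      have hfi : CM r 0 (fi L p q 0) := (hFIP K N S L p q h 0).2.2.1 r hr
      have has : a ≤ s := by
        have h1 := hc.li.fintype_card_le_finrank
        rw [Fintype.card_fin, hs] at h1
        exact h1
      have hr1 : 1 ≤ r := r_pos h (hc.yf a le_rfl) hc.ya hr
      have hgp := hg_pk hg y a hc.yf
      have hstep : ∀ i, 1 ≤ i → i ≤ a → CM r 1 (pk L p q y (i + 1)) → CM r 1 (pk L p q y i) := by
        intro i hi1 hia h1
        have h2 : clI (pk L p q y i) (y i) = fi L p q 0 := by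
          ext f
          exact hQ1 i hi1 hia f
        refine hCMC K N r 0 (pk L p q y i) (y i) (hgp i (by omega)) (hc.yf i hia) ?_ ?_
        · rw [h2]; exact hfi
        · rw [← pk_succ]; exact h1
      have hdown : ∀ i, i ≤ a → 1 ≤ i → CM r 1 (pk L p q y (i + 1)) →
          CM r 1 (pk L p q y 1) := by
        intro i
        induction i with
        | zero => intro _ h1 _; omega
        | succ i ihi =>
          intro h1 _ h3
          have h4 := hstep (i + 1) (by omega) h1 h3
          rcases Nat.eq_zero_or_pos i with h5 | h5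
          · subst h5; exact h4
          · exact ihi (by omega) h5 h4
      have hone : CM r 1 (pk L p q y 1) := by
        rcases Nat.lt_or_ge a s with hlt | hge
        · obtain ⟨C, hC⟩ := Submodule.exists_isCompl (Submodule.span K (x '' Set.Iio a))
          obtain ⟨hP, hm, -, hfL, hfr⟩ := hT1 C hC
          have hm' := ih (s - a) (by have := hc.pos; omega) C
            (L ⊔ Submodule.span K (y '' Set.Iic a)) (p.comp C.subtype) (q.comp C.subtype) hP
            (by omega) (by omega) (r - 1) (by omega)
          rw [hm] at hm'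
          have h1 : r - 1 + 1 = r := by omega
          rw [h1] at hm'
          exact hdown a le_rfl hc.pos hm'
        · have hae : a = s := by omega
          have h1 : CM r 1 (pk L p q y a) := by
            rw [hT2 (by omega)]
            exact CM.mono hfi (Nat.zero_le 1)
          rcases Nat.lt_or_ge 1 a with h2 | h2
          · obtain ⟨b, rfl⟩ : ∃ b, a = b + 1 := ⟨a - 1, by omega⟩
            exact hdown b (by omega) (by omega) h1
          · have h3 : a = 1 := by have := hc.pos; omega
            rwa [h3] at h1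
      refine hCMA K N r 1 (mi L p q) (y 0) hg (hc.yf 0 (Nat.zero_le _)) ?_ ?_
      · intro f hf
        exact hSCA K N S L p q h (by omega) f (hQ4 f (AA_mi hmi hf))
      · rw [← pk_one]
        exact hone
  intro S _ _ _ L p q h hs r hr
  exact main _ S L p q h rfl hs r hr

end Pool.EGD
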